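import Pool.Agent.TH133.AJAlg

/-!
# The condition `F^2 = ker AJ` is a condition on Griffiths groups

`𝒱` is a class of smooth projective geometrically irreducible varieties over the field `k` closed
under products (for example all of them), `C` the Chow groups with rational coefficients (in the
form of their formal properties, `IsChowProj`), `H` a Weil cohomology theory (`IsWeilProj`) and `T`
the Abel-Jacobi maps (in the form of their functoriality, `AbelJacobi.IsFunctorial`, and of the
reducibility theorem of Poincare for the Jacobians of curves, `AbelJacobi.HasCurveProjectors`).
`IsBBAJ T F` says that `F` satisfies the conditions 1 to 4 of the problem; `IsBBCorr H F` says the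
same without `F^2 = ker AJ`.

Assume the Kunneth standard conjecture. A Bloch-Beilinson filtration with `F^2 = ker AJ` exists if
and only if there is a filtration with the other properties for which each element of the kernel of
the Abel-Jacobi map is the sum of an algebraically trivial cycle and an element of `F^2`. So the
equality `F^2 = ker AJ` has to be checked only modulo algebraic equivalence, in the Griffiths groups.
This is also equivalent to a statement without filtrations: single correspondences which act as
zero on `H^j(X)`, `i ≤ j < 2 i`, are locally nilpotent on `CH^i(X)_hom`, and every cycle in the kernel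
of the Abel-Jacobi map is algebraically equivalent to a cycle `γ_* b` with `b ∈ CH^i(X)_hom` and `γ`
acting as zero on `H^(2i-1)(X)`.
-/

open CategoryTheory AlgebraicGeometry

set_option autoImplicit false

universe u v w

namespace Pool.Agent.Results.MP_08891c_ag.GriffithsGroupSuffices

open Pool.Agent.H914 Pool.Agent.W492.BB Pool.Agent.TH133

/-- Assume the Kunneth standard conjecture. Then the following are equivalent: there is a
Bloch-Beilinson filtration with `F^2 = ker AJ`; there is a Bloch-Beilinson filtration (without the
condition on `F^2`) such that every cycle in the kernel of an Abel-Jacobi map is the sum of an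
algebraically trivial cycle and of an element of `F^2`; self-correspondences of degree zero of `X`
acting as zero on `H^j(X)` for `i ≤ j < 2 i` are locally nilpotent on `CH^i(X)_hom`, for all `X` and
`i`, and every cycle in the kernel of the Abel-Jacobi map in `CH^i(X)` is the sum of an
algebraically trivial cycle and of `γ_* b` for some `b ∈ CH^i(X)_hom` and some self-correspondence
`γ` of degree zero of `X` acting as zero on `H^(2i-1)(X)`. -/
theorem result {k : Type u} [Field k] {𝒱 : VarClass k} (C : TheoryData.{u, v, 0} 𝒱 ℚ)
    [IsChowProj C] {K : Type w} [Field K] (H : WeilTheoryData.{u, v, w} C K) [IsWeilProj H]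
    (hK : KunnethConjecture H) (T : AbelJacobi H) (hT : T.IsFunctorial)
    (hT' : T.HasCurveProjectors) :
    List.TFAE [∃ F : Filtration C, IsBBAJ T F,
      ∃ F : Filtration C, IsBBCorr H F ∧ KerInAlgAddTwo T F,
      (∀ (X : 𝒱.Obj) (i : ℕ), NilpotentOnHom H X i) ∧ KerInAlgAddImage T] :=
  isBBAJ_alg_tfae hK hT hT'

end Pool.Agent.Results.MP_08891c_ag.GriffithsGroupSuffices
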