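import Pool.Agent.TH133.AJ

/-!
# Bloch-Beilinson filtrations and the kernel of the Abel-Jacobi map

`𝒱` is a class of smooth projective geometrically irreducible varieties over the field `k` closed
under products (for example all of them), `C` the Chow groups with rational coefficients (in the
form of their formal properties, `IsChowProj`), `H` a Weil cohomology theory (`IsWeilProj`) and `T`
the Abel-Jacobi maps (in the form of their functoriality, `AbelJacobi.IsFunctorial`). `IsBBAJ T F`
says that `F` satisfies the conditions 1 to 4 of the problem, including `F^2 = ker AJ`.

Assume the Kunneth standard conjecture. Then a Bloch-Beilinson filtration exists if and only if a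
statement without filtrations and projectors holds: if `γ ∈ CH^d(X × X)` (`d = dim X`) acts as zero
on `H^m(X)` for all `m` with `i ≤ m ≤ 2 i - 2`, then the action of this single correspondence on the
kernel of the Abel-Jacobi map in `CH^i(X)` is locally nilpotent. In this case much more is true: for
all `γ_0, …, γ_{i-2}` such that `γ_n` acts as zero on `H^(2i-2-n)(X)` one has
`γ_{i-2} ∘ ⋯ ∘ γ_0 = 0` on the kernel of the Abel-Jacobi map.

Proof. If the nilpotence holds, then a homologically trivial correspondence maps `CH^i(X)_hom` to the
kernel of the Abel-Jacobi map, where it is locally nilpotent. Applied to `Δ × γ` on `X × X` this shows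
that the ideal of homologically trivial correspondences is nil; hence Chow-Kunneth decompositions
exist. For each of them one gets the conjecture (D) of Murre and the second half of (B), as an
idempotent which is locally nilpotent is zero. (D) for `X × Y` implies that homologically trivial
correspondences from `X` to `Y` strictly lower the weights, and that no correspondence raises them.
So the induced filtrations satisfy the conditions 2, 3 and 4. Finally the projector `π_{2i-1}` acts
as zero on `H^m(X)`, `i ≤ m ≤ 2 i - 2`, so that it is zero on the kernel of the Abel-Jacobi map;
hence the latter is `F^2`.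
-/

open CategoryTheory AlgebraicGeometry

set_option autoImplicit false

universe u v w

namespace Pool.Agent.Results.MP_08891c_ag.KernelOfAbelJacobi

open Pool.Agent.H914 Pool.Agent.W492.BB Pool.Agent.TH133

/-- Assume the Kunneth standard conjecture. Then the following are equivalent: there is a
Bloch-Beilinson filtration with `F^2 = ker AJ`; for all `X` and `i`, each self-correspondence of
degree zero of `X` which acts as zero on `H^m(X)` for `i ≤ m ≤ 2 i - 2` is locally nilpotent on the
kernel of the Abel-Jacobi map in `CH^i(X)`; for all `X` and `i`, the composition of any `i - 1`
self-correspondences of degree zero of `X` the `n`-th of which (`n = 1, …, i - 1`) acts as zero on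
`H^(2i-1-n)(X)` is zero on the kernel of the Abel-Jacobi map in `CH^i(X)`. -/
theorem result {k : Type u} [Field k] {𝒱 : VarClass k} (C : TheoryData.{u, v, 0} 𝒱 ℚ)
    [IsChowProj C] {K : Type w} [Field K] (H : WeilTheoryData.{u, v, w} C K) [IsWeilProj H]
    (hK : KunnethConjecture H) (T : AbelJacobi H) (hT : T.IsFunctorial) :
    List.TFAE [∃ F : Filtration C, IsBBAJ T F,
      ∀ (X : 𝒱.Obj) (i : ℕ), NilpotentOnKer T X i,
      ∀ (X : 𝒱.Obj) (i : ℕ), ProductsVanishOnKer T X i] :=
  isBBAJ_tfae hK hT

end Pool.Agent.Results.MP_08891c_ag.KernelOfAbelJacobi
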