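import Pool.Agent.TH613.MC.AJ

/-!
# Bloch-Beilinson filtrations and the kernel of the Abel-Jacobi map in the middle codimension

`𝒱` is a class of smooth projective geometrically irreducible varieties over the field `k` closed
under products (for example all smooth connected complex projective varieties), `C` the Chow groups
with rational coefficients (in the form of their formal properties, `IsChowProj`), `H` a Weil
cohomology theory (`IsWeilProj`), and `T` the Abel-Jacobi maps `CH^i(X)_hom → J^(2i-1)(X) ⊗ ℚ` (in
the form of their functoriality, `IsFunctorial`). `IsBBAJ T F` says that `F` is a Bloch-Beilinson
filtration: the conditions 1 to 4 of the problem, with `F^2 = ker AJ`.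

Assume the standard conjectures of Kunneth and Lefschetz type. The theorem says that the existence
of such a filtration can be tested on one group for each variety, the kernel of the Abel-Jacobi map
in the middle codimension: it suffices to know, for the varieties `Y` of even dimension `2 m`, that
on `ker AJ ⊂ CH^m(Y)` the homologically trivial self-correspondences of degree zero are locally
nilpotent and the idempotents `p`, for which the cohomology of the motive `(Y, p)` is concentrated
in one degree `≥ 2 m - 1`, act as zero (`MiddleKerCondition`). Moreover it suffices to test this for
the squares `Y = X × X`, or for the members of any class `S` of varieties such that each `X` of even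
dimension is a middle summand of some `Y` in `S`. (By the formula for the motive of a blow-up, which
is not part of the formalization, one can take for `S` the blow-ups of projective spaces of even
dimension along subvarieties of even dimension, which are rational varieties.)

Proof. Let `d = dim X`. A homologically trivial class in `CH^d(X × X)` to which one applies a
correspondence acting as zero on `H^(2d-1)(X × X)` lies in the kernel of the Abel-Jacobi map; so the
condition implies the corresponding condition for all homologically trivial classes. As in
`MP_f4876d_ag.MiddleCodimension` one gets Chow-Kunneth decompositions `π` and the conjectures (D)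
and (B) of Murre. If `z ∈ CH^i(X)` lies in the kernel of the Abel-Jacobi map, then so does
`z × u ∈ CH^d(X × X)` with `u ∈ CH^(d-i)(X)`, and the idempotent `π_(2i-1) × (v × u)`,
`deg (u v) = 1`, is concentrated in the degree `2 d - 1`, so it kills `z × u`; hence
`(π_(2i-1))_* z = 0` and `z ∈ F^2`.
-/

open CategoryTheory AlgebraicGeometry

set_option autoImplicit false

universe u v w

namespace Pool.Agent.Results.MP_08891c_ag.MiddleAbelJacobi

open Pool.Agent.H914 Pool.Agent.W492.BB Pool.Agent.TH133 Pool.Agent.TH613.MC

/-- Assume the Kunneth and the Lefschetz standard conjectures, and let `S` be a class of varieties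
such that each variety of even dimension is a middle summand of some member of `S`. The following
are equivalent: there is a Bloch-Beilinson filtration with `F^2` the kernel of the Abel-Jacobi map;
for all `X` of even dimension `2 m`, each self-correspondence of degree zero of `X` which acts as
zero on `H^j(X)` for `m ≤ j ≤ 2 m - 2` is locally nilpotent on `ker AJ ⊂ CH^m(X)`; the condition on
`ker AJ` in the middle codimension holds for all squares `X × X`; it holds for all members of `S`. -/
theorem result {k : Type u} [Field k] {𝒱 : VarClass k} (C : TheoryData.{u, v, 0} 𝒱 ℚ)
    [IsChowProj C] {K : Type w} [Field K] (H : WeilTheoryData.{u, v, w} C K) [IsWeilProj H]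
    (T : AbelJacobi H) (hT : T.IsFunctorial)
    (hK : KunnethConjecture H) (hL : LefschetzInverse H) (S : Set 𝒱.Obj)
    (hS : ∀ X : 𝒱.Obj, Even X.dim → ∃ Y ∈ S, IsMiddleSummand C X Y) :
    List.TFAE [∃ F : Filtration C, IsBBAJ T F,
      ∀ (X : 𝒱.Obj) (m : ℕ), X.dim = 2 * m → NilpotentOnKer T X m,
      ∀ X : 𝒱.Obj, MiddleKerCondition T (X.prod X),
      ∀ Y ∈ S, MiddleKerCondition T Y] :=
  isBBAJ_tfae_middle hK hL hT S hS

end Pool.Agent.Results.MP_08891c_ag.MiddleAbelJacobi
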