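import Pool.Agent.TH116.ZC.AJ

/-!
# Bloch-Beilinson filtrations: the kernel of one Abel-Jacobi map in one cohomological degree

`𝒱` is a class of smooth projective geometrically irreducible varieties over the field `k` closed
under products (for example all of them, with `k = ℂ`), `C` the Chow groups with rational
coefficients (in the form of their formal properties, `IsChowProj`), `H` a Weil cohomology theory
(`IsWeilProj`) and `T` the Abel-Jacobi maps (`AbelJacobi`, with the functoriality `IsFunctorial`).
`IsBBAJ T F` says that `F` is a Bloch-Beilinson filtration (conditions 1 to 4 of the problem,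
including `F^2 = ker AJ`).

Assume the Kunneth standard conjecture; that `k` is algebraically closed and uncountable is
used through two known facts: `HasGenericPoints` (the theorem of Bloch and Srinivas) and
`HasGenericCurves` (exterior products with generic zero-cycles of degree zero on generic curves are
injective; see the proof there). Then the existence of a Bloch-Beilinson filtration is equivalent
to two statements about single correspondences `γ ∈ CH^d(X × X)`, `d = dim X`:

(M') if `d = 2 i - 1` and `γ` acts as zero on `H^j(X)` for `j ≠ d`, then the action of `γ` on the
kernel of the Abel-Jacobi map `CH^i(X)_hom → J^(2i-1)(X)` is locally nilpotent;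

(Z) if `γ` acts as zero on `H^j(X)` for `j ≠ d - 1`, then the action of `γ` on `CH_0(X)` is
locally nilpotent.

Here (Z) can be replaced by the following statement about cohomology, which is a consequence of the
Lefschetz standard conjecture:

(L) for `j < d` there is a sum of compositions `X → D → X` of correspondences of degree zero with
`dim D = d - 1` which acts as the identity on `H^j(X)`.

(In `MP_08891c_ag.MiddleAbelJacobi` the Lefschetz standard conjecture is assumed, and on
`2 m`-dimensional varieties all cohomological degrees `j ≥ 2 m - 1` are considered. Here no standard
conjecture besides the one of Kunneth is assumed, and only one degree is left.)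

Proof. For `x ∈ CH^i(X)_hom` and a zero-cycle `t` of degree zero on a curve `T`, `x × t` lies in the
kernel of the Abel-Jacobi map. Apply (M') to `Δ × γ × Δ` on `X × X × T` and `γ × t` for `γ`
homologically trivial and `t` generic: such `γ` are nilpotent, so Chow-Kunneth decompositions `π`
exist. Exterior products with `t` also reduce the vanishing of `π_j` on `CH^i(X)_hom`, `j ≥ 2 i`, to
the vanishing on `ker AJ` for `j ≥ 2 i - 1`, and the latter to `j = 2 i - 1`. Exterior products with
a point of a curve or with a curve reduce this to `dim X = 2 i - 1`, that is, to (M'). So (D) holds
and `π_(2i-1)` acts as zero on `ker AJ`, hence `F^2 = ker AJ`. The second half of (B) follows from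
(L), and (L) from (Z), as in the case of filtrations without Abel-Jacobi maps.
-/

open CategoryTheory AlgebraicGeometry

set_option autoImplicit false

universe u v w

namespace Pool.Agent.Results.MP_08891c_ag.OneDegreeAbelJacobi

open Pool.Agent.H914 Pool.Agent.W492.BB Pool.Agent.TH133 Pool.Agent.TH116.ZC

/-- Assume the Kunneth standard conjecture (over an uncountable algebraically closed field, used
through `HasGenericPoints` and `HasGenericCurves`). The following are equivalent: there is a
Bloch-Beilinson filtration with `F^2 = ker AJ`; (M') and (Z); (M') and (L). -/
theorem result {k : Type u} [Field k] {𝒱 : VarClass k} (C : TheoryData.{u, v, 0} 𝒱 ℚ)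
    [IsChowProj C] {K : Type w} [Field K] (H : WeilTheoryData.{u, v, w} C K) [IsWeilProj H]
    (hK : KunnethConjecture H) (hG : HasGenericPoints C) (hE : HasGenericCurves C)
    (T : AbelJacobi H) (hT : T.IsFunctorial) :
    List.TFAE [∃ F : Filtration C, IsBBAJ T F,
      (∀ X : 𝒱.Obj, NilpotentOnMiddleKer T X) ∧ ∀ X : 𝒱.Obj, NilpotentOnZeroCycles H X,
      (∀ X : 𝒱.Obj, NilpotentOnMiddleKer T X) ∧ ∀ X : 𝒱.Obj, LowDegreesFactor H X] :=
  isBBAJ_tfae_middle hK hG hE hT

end Pool.Agent.Results.MP_08891c_ag.OneDegreeAbelJacobi
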